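import Pool.Agent.DWX.Contract

/-!
# `B₀ / (x, I₀ ^ N)` and `B₁ / (w, I₁ ^ N)` have finite dimension
-/

set_option autoImplicit false

open LaurentPolynomial

universe u

namespace Pool.Agent.DWC

variable {k : Type u} [Field k]

/-- a noetherian algebra modulo a power of an ideal with residue ring `k` has finite dimension -/
theorem fin_pow {A : Type u} [CommRing A] [Algebra k A] [IsNoetherianRing A] (m : Ideal A)
    (hm : ∀ a : A, ∃ c : k, a - algebraMap k A c ∈ m) (N : ℕ) :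
    ∃ s : Finset A, ∀ a : A, ∃ v ∈ Submodule.span k (s : Set A), a - v ∈ m ^ N := by
  classical
  induction N with
  | zero =>
    refine ⟨∅, fun a => ⟨0, zero_mem _, ?_⟩⟩
    rw [pow_zero, Ideal.one_eq_top]
    trivial
  | succ N ih =>
    obtain ⟨s, hs⟩ := ih
    obtain ⟨u, hu⟩ := (isNoetherianRing_iff_ideal_fg A).1 inferInstance (m ^ N)
    refine ⟨s ∪ u, fun a => ?_⟩
    obtain ⟨v, hv, hav⟩ := hs a
    obtain ⟨f, -, hf⟩ := Submodule.mem_span_finset.1 (hu.symm ▸ hav : a - v ∈ Ideal.span ↑u)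
    choose e he using fun g => hm (f g)
    have h1 : a - (v + ∑ g ∈ u, e g • g) = ∑ g ∈ u, (f g - algebraMap k A (e g)) * g := by
      rw [← sub_sub, ← hf, ← Finset.sum_sub_distrib]
      refine Finset.sum_congr rfl fun g _ => ?_
      rw [smul_eq_mul, Algebra.smul_def]
      ring
    refine ⟨v + ∑ g ∈ u, e g • g, ?_, ?_⟩
    · rw [Finset.coe_union, Submodule.span_union]
      refine Submodule.add_mem_sup hv (Submodule.sum_mem _ fun g hg => ?_)
      exact Submodule.smul_mem _ _ (Submodule.subset_span hg)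
    · rw [h1]
      refine Ideal.sum_mem _ fun g hg => ?_
      rw [pow_succ, mul_comm (m ^ N) m]
      refine Ideal.mul_mem_mul (he g) ?_
      rw [← hu]
      exact Ideal.subset_span hg

/-- powers of `(y) + I` -/
theorem mem_of_mem_pow {A : Type u} [CommRing A] (y : A) (I : Ideal A) (N : ℕ) {a : A}
    (ha : a ∈ (Ideal.span {y} ⊔ I) ^ N) : ∃ b, ∃ i ∈ I ^ N, a = y * b + i := by
  have h : (Ideal.span {y} ⊔ I) ^ N ≤ Ideal.span {y} ⊔ I ^ N := by
    clear ha
    induction N with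
    | zero => simp
    | succ N ih =>
      have h1 : (Ideal.span {y} ⊔ I ^ N) * (Ideal.span {y} ⊔ I) ≤
          Ideal.span {y} ⊔ I ^ (N + 1) := by
        refine Ideal.mul_le.2 fun a ha b hb => ?_
        obtain ⟨a1, ha1, a2, ha2, rfl⟩ := Submodule.mem_sup.1 ha
        obtain ⟨b1, hb1, b2, hb2, rfl⟩ := Submodule.mem_sup.1 hb
        have e : (a1 + a2) * (b1 + b2) = (a1 * (b1 + b2) + a2 * b1) + a2 * b2 := by ring
        rw [e]
        refine Submodule.add_mem_sup (Ideal.add_mem _ (Ideal.mul_mem_right _ _ ha1)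
          (Ideal.mul_mem_left _ _ hb1)) ?_
        rw [pow_succ]
        exact Ideal.mul_mem_mul ha2 hb2
      rw [pow_succ]
      exact (Ideal.mul_mono_left ih).trans h1
  obtain ⟨c, hc, i, hi, rfl⟩ := Submodule.mem_sup.1 (h ha)
  obtain ⟨b, rfl⟩ := Ideal.mem_span_singleton'.1 hc
  exact ⟨b, i, hi, by ring⟩

variable {X : Nbhd k}

/-- a section of `𝒪_C` over `C ∖ {∞}` lifts to `U₀` -/
theorem lift_chart₀ {g : k[T;T⁻¹]} (hg : g ∈ Reg0 k) : ∃ β ∈ X.B₀, X.res β = g := by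
  refine ⟨g.coeff.sum fun i c => algebraMap k X.B c * (X.x : X.B) ^ i.toNat, ?_, ?_⟩
  · rw [Finsupp.sum]
    exact X.B₀.sum_mem fun i _ => X.B₀.mul_mem (X.B₀.algebraMap_mem _) (X.B₀.pow_mem X.x_mem _)
  · conv_rhs => rw [← AddMonoidAlgebra.sum_coeff_single g]
    rw [Finsupp.sum, Finsupp.sum, map_sum]
    refine Finset.sum_congr rfl fun i hi => ?_
    have h0 : 0 ≤ i := by
      by_contra h
      exact Finsupp.mem_support_iff.1 hi (hg i (by omega))
    rw [map_mul, AlgHom.commutes, map_pow, X.res_x, T_pow, mul_one, Int.toNat_of_nonneg h0]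
    exact (single_eq_C_mul_T _ _).symm

/-- a section of `𝒪_C` over `C ∖ {0}` lifts to `U₁` -/
theorem lift_chart₁ {g : k[T;T⁻¹]} (hg : g ∈ RegInf k 0) : ∃ β ∈ X.B₁, X.res β = g := by
  refine ⟨g.coeff.sum fun i c => algebraMap k X.B c * (X.w : X.B) ^ (-i).toNat, ?_, ?_⟩
  · rw [Finsupp.sum]
    exact X.B₁.sum_mem fun i _ => X.B₁.mul_mem (X.B₁.algebraMap_mem _) (X.B₁.pow_mem X.w_mem _)
  · conv_rhs => rw [← AddMonoidAlgebra.sum_coeff_single g]
    rw [Finsupp.sum, Finsupp.sum, map_sum]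
    refine Finset.sum_congr rfl fun i hi => ?_
    have h0 : 0 ≤ -i := by
      by_contra h
      exact Finsupp.mem_support_iff.1 hi (hg i (by omega))
    rw [map_mul, AlgHom.commutes, map_pow, X.res_w, T_pow, Int.toNat_of_nonneg h0,
      show -i * -1 = i by ring]
    exact (single_eq_C_mul_T _ _).symm

private theorem coT (n : ℤ) (f : k[T;T⁻¹]) (i : ℤ) :
    ((T n : k[T;T⁻¹]) * f).coeff i = f.coeff (i - n) := by
  have h : i = n + (i - n) := by ring
  conv_lhs => rw [h]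
  exact (AddMonoidAlgebra.coeff_single_mul_add f (1 : k) n (i - n)).trans (one_mul _)

private theorem coC (c : k) (i : ℤ) : (C c : k[T;T⁻¹]).coeff i = if i = 0 then c else 0 := by
  change (Finsupp.single (0 : ℤ) c) i = _
  rw [Finsupp.single_apply]
  simp only [eq_comm]

private theorem span_image {A B : Type u} [CommRing A] [CommRing B] [Algebra k A] [Algebra k B]
    [DecidableEq B] (f : A →ₐ[k] B) (s : Finset A) {v : A}
    (hv : v ∈ Submodule.span k (s : Set A)) :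
    f v ∈ Submodule.span k ((s.image f : Finset B) : Set B) := by
  have h := Submodule.mem_map_of_mem (f := f.toLinearMap) hv
  rw [Submodule.map_span] at h
  rw [Finset.coe_image]
  exact h

private theorem pow_map {A : Subalgebra k X.B} (N : ℕ) {i : A}
    (hi : i ∈ (X.I.comap (algebraMap A X.B)) ^ N) : (i : X.B) ∈ X.I ^ N := by
  have h := Ideal.mem_map_of_mem (algebraMap A X.B) hi
  rw [Ideal.map_pow] at h
  exact Ideal.pow_right_mono Ideal.map_comap_le N h

theorem fin_chart₀ (hX : X.Formal) (N : ℕ) : ∃ s : Finset X.B, (∀ c ∈ s, c ∈ X.B₀) ∧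
    ∀ b ∈ X.B₀, ∃ b' ∈ X.B₀, ∃ i ∈ X.I ^ N, ∃ c : X.B → k,
      b = (X.x : X.B) * b' + i + ∑ g ∈ s, c g • g := by
  classical
  have := hX.noeth₀
  set y : X.B₀ := ⟨X.x, X.x_mem⟩ with hy
  have hm : ∀ a : X.B₀, ∃ c : k, a - algebraMap k X.B₀ c ∈ Ideal.span {y} ⊔ X.I₀ := by
    intro a
    have ha : X.res (a : X.B) ∈ Reg0 k := X.res₀ a a.2
    set f := X.res (a : X.B) with hf
    obtain ⟨β, hβ, hβ'⟩ := lift_chart₀ (X := X) (g := T (-1) * (f - C (f.coeff 0))) (by
      intro i hi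
      rw [coT]
      change f.coeff (i - -1) - (C (f.coeff 0) : k[T;T⁻¹]).coeff (i - -1) = 0
      rw [coC]
      by_cases h : i = -1
      · subst h
        simp
      · rw [if_neg (by omega), ha _ (by omega), sub_zero])
    refine ⟨f.coeff 0, Submodule.mem_sup.2 ⟨y * ⟨β, hβ⟩,
      Ideal.mul_mem_right _ _ (Ideal.mem_span_singleton_self y),
      a - algebraMap k X.B₀ (f.coeff 0) - y * ⟨β, hβ⟩, ?_, by ring⟩⟩
    change X.res ((a : X.B) - algebraMap k X.B (f.coeff 0) - (X.x : X.B) * β) = 0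
    rw [map_sub, map_sub, map_mul, AlgHom.commutes, hβ', X.res_x, ← mul_assoc, ← T_add]
    have h1 : (T (1 + -1) : k[T;T⁻¹]) = 1 := rfl
    rw [h1, one_mul]
    exact sub_self _
  obtain ⟨s, hs⟩ := fin_pow (Ideal.span {y} ⊔ X.I₀) hm N
  refine ⟨s.image (fun a : X.B₀ => (a : X.B)), ?_, ?_⟩
  · intro c hc
    obtain ⟨a, -, rfl⟩ := Finset.mem_image.1 hc
    exact a.2
  · intro b hb
    obtain ⟨v, hv, hbv⟩ := hs ⟨b, hb⟩
    obtain ⟨b', i, hi, e⟩ := mem_of_mem_pow y X.I₀ N hbv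
    have hv' : (v : X.B) ∈ Submodule.span k
        ((s.image (fun a : X.B₀ => (a : X.B)) : Finset X.B) : Set X.B) :=
      span_image X.B₀.val s hv
    obtain ⟨c, -, hc⟩ := Submodule.mem_span_finset.1 hv'
    refine ⟨b', b'.2, i, pow_map N hi, c, ?_⟩
    have h1 := congrArg (fun a : X.B₀ => (a : X.B)) e
    have h2 : b - (v : X.B) = (X.x : X.B) * b' + i := h1
    rw [hc, ← h2]
    ring

theorem fin_chart₁ (hX : X.Formal) (N : ℕ) : ∃ s : Finset X.B, (∀ c ∈ s, c ∈ X.B₁) ∧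
    ∀ b ∈ X.B₁, ∃ b' ∈ X.B₁, ∃ i ∈ X.I ^ N, ∃ c : X.B → k,
      b = (X.w : X.B) * b' + i + ∑ g ∈ s, c g • g := by
  classical
  have := hX.noeth₁
  set y : X.B₁ := ⟨X.w, X.w_mem⟩ with hy
  have hm : ∀ a : X.B₁, ∃ c : k, a - algebraMap k X.B₁ c ∈ Ideal.span {y} ⊔ X.I₁ := by
    intro a
    have ha : X.res (a : X.B) ∈ RegInf k 0 := X.res₁ a a.2
    set f := X.res (a : X.B) with hf
    obtain ⟨β, hβ, hβ'⟩ := lift_chart₁ (X := X) (g := T 1 * (f - C (f.coeff 0))) (by
      intro i hi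
      rw [coT]
      change f.coeff (i - 1) - (C (f.coeff 0) : k[T;T⁻¹]).coeff (i - 1) = 0
      rw [coC]
      by_cases h : i = 1
      · subst h
        simp
      · rw [if_neg (by omega), ha _ (by omega), sub_zero])
    refine ⟨f.coeff 0, Submodule.mem_sup.2 ⟨y * ⟨β, hβ⟩,
      Ideal.mul_mem_right _ _ (Ideal.mem_span_singleton_self y),
      a - algebraMap k X.B₁ (f.coeff 0) - y * ⟨β, hβ⟩, ?_, by ring⟩⟩
    change X.res ((a : X.B) - algebraMap k X.B (f.coeff 0) - (X.w : X.B) * β) = 0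
    rw [map_sub, map_sub, map_mul, AlgHom.commutes, hβ', X.res_w, ← mul_assoc, ← T_add]
    have h1 : (T (-1 + 1) : k[T;T⁻¹]) = 1 := rfl
    rw [h1, one_mul]
    exact sub_self _
  obtain ⟨s, hs⟩ := fin_pow (Ideal.span {y} ⊔ X.I₁) hm N
  refine ⟨s.image (fun a : X.B₁ => (a : X.B)), ?_, ?_⟩
  · intro c hc
    obtain ⟨a, -, rfl⟩ := Finset.mem_image.1 hc
    exact a.2
  · intro b hb
    obtain ⟨v, hv, hbv⟩ := hs ⟨b, hb⟩
    obtain ⟨b', i, hi, e⟩ := mem_of_mem_pow y X.I₁ N hbv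
    have hv' : (v : X.B) ∈ Submodule.span k
        ((s.image (fun a : X.B₁ => (a : X.B)) : Finset X.B) : Set X.B) :=
      span_image X.B₁.val s hv
    obtain ⟨c, -, hc⟩ := Submodule.mem_span_finset.1 hv'
    refine ⟨b', b'.2, i, pow_map N hi, c, ?_⟩
    have h1 := congrArg (fun a : X.B₁ => (a : X.B)) e
    have h2 : b - (v : X.B) = (X.w : X.B) * b' + i := h1
    rw [hc, ← h2]
    ring

end Pool.Agent.DWC
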