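import Pool.Agent.DWC.Defs

/-!
# The direct sum of two sheaves
-/

set_option autoImplicit false

open LaurentPolynomial

universe u

namespace Pool.Agent.DWC

variable {k : Type u} [Field k] {X : Nbhd k}

theorem Sh.pow_x_mem (E : Sh X) {m : E.M} {n : ℕ} (h : (X.x : X.B) ^ n • m ∈ E.M₀) (j : ℕ) :
    (X.x : X.B) ^ (j + n) • m ∈ E.M₀ := by
  rw [pow_add, mul_smul]
  exact E.smul₀ _ (X.B₀.pow_mem X.x_mem j) _ h

theorem Sh.pow_w_mem (E : Sh X) {m : E.M} {n : ℕ} (h : (X.w : X.B) ^ n • m ∈ E.M₁) (j : ℕ) :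
    (X.w : X.B) ^ (j + n) • m ∈ E.M₁ := by
  rw [pow_add, mul_smul]
  exact E.smul₁ _ (X.B₁.pow_mem X.w_mem j) _ h

/-- the direct sum -/
@[reducible] def Sh.prod (E F : Sh X) : Sh X where
  M := E.M × F.M
  M₀ := E.M₀.prod F.M₀
  M₁ := E.M₁.prod F.M₁
  smul₀ := fun b hb m hm => ⟨E.smul₀ b hb m.1 hm.1, F.smul₀ b hb m.2 hm.2⟩
  smul₁ := fun b hb m hm => ⟨E.smul₁ b hb m.1 hm.1, F.smul₁ b hb m.2 hm.2⟩
  loc₀ := by
    rintro ⟨m, m'⟩
    obtain ⟨n, hn⟩ := E.loc₀ m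
    obtain ⟨n', hn'⟩ := F.loc₀ m'
    refine ⟨n' + n, E.pow_x_mem hn n', ?_⟩
    rw [add_comm]
    exact F.pow_x_mem hn' n
  loc₁ := by
    rintro ⟨m, m'⟩
    obtain ⟨n, hn⟩ := E.loc₁ m
    obtain ⟨n', hn'⟩ := F.loc₁ m'
    refine ⟨n' + n, E.pow_w_mem hn n', ?_⟩
    rw [add_comm]
    exact F.pow_w_mem hn' n

/-- transport of a layer along a surjective map which is surjective on the charts -/
theorem isLayer_of_surj {E E' : Sh X} {d : ℤ} {P₁ P₂ : Submodule X.B E.M}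
    {R₁ R₂ : Submodule X.B E'.M} (π : R₂ →ₗ[X.B] P₂) (hs : Function.Surjective π)
    (hk : ∀ p : R₂, (π p : E.M) ∈ P₁ ↔ (p : E'.M) ∈ R₁)
    (h0 : ∀ q : P₂, (q : E.M) ∈ E.M₀ ↔ ∃ p : R₂, (p : E'.M) ∈ E'.M₀ ∧ π p = q)
    (h1 : ∀ q : P₂, (q : E.M) ∈ E.M₁ ↔ ∃ p : R₂, (p : E'.M) ∈ E'.M₁ ∧ π p = q)
    (h : IsLayer E d P₁ P₂) : IsLayer E' d R₁ R₂ := by
  obtain ⟨r, θ, t1, t2, t3, t4, t5⟩ := h
  refine ⟨r, θ.comp π.toAddMonoidHom, ?_, ?_, ?_, ?_, ?_⟩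
  · intro b p i
    change θ (π (b • p)) i = X.res b * θ (π p) i
    rw [map_smul, t1]
  · exact t2.comp hs
  · intro p
    exact (t3 (π p)).trans (hk p)
  · intro f
    rw [← t4 f]
    constructor
    · rintro ⟨p, hp, rfl⟩
      exact ⟨π p, (h0 (π p)).2 ⟨p, hp, rfl⟩, rfl⟩
    · rintro ⟨q, hq, rfl⟩
      obtain ⟨p, hp, rfl⟩ := (h0 q).1 hq
      exact ⟨p, hp, rfl⟩
  · intro f
    rw [← t5 f]
    constructor
    · rintro ⟨p, hp, rfl⟩
      exact ⟨π p, (h1 (π p)).2 ⟨p, hp, rfl⟩, rfl⟩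
    · rintro ⟨q, hq, rfl⟩
      obtain ⟨p, hp, rfl⟩ := (h1 q).1 hq
      exact ⟨p, hp, rfl⟩

theorem isLayer_prod_right (E F : Sh X) {d : ℤ} {P₁ P₂ : Submodule X.B F.M}
    (h : IsLayer F d P₁ P₂) :
    IsLayer (E.prod F) d ((⊥ : Submodule X.B E.M).prod P₁) ((⊥ : Submodule X.B E.M).prod P₂) := by
  let π : ↥((⊥ : Submodule X.B E.M).prod P₂) →ₗ[X.B] P₂ :=
    { toFun := fun p => ⟨p.1.2, p.2.2⟩
      map_add' := fun _ _ => rfl
      map_smul' := fun _ _ => rfl }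
  have hex : ∀ q : P₂, ((0 : E.M), (q : F.M)) ∈ (⊥ : Submodule X.B E.M).prod P₂ := fun q =>
    ⟨Submodule.zero_mem _, q.2⟩
  refine isLayer_of_surj (E' := E.prod F) π ?_ ?_ ?_ ?_ h
  · intro q
    exact ⟨⟨_, hex q⟩, rfl⟩
  · intro p
    exact ⟨fun hp => ⟨p.2.1, hp⟩, fun hp => hp.2⟩
  · intro q
    constructor
    · intro hq
      exact ⟨⟨_, hex q⟩, ⟨E.M₀.zero_mem, hq⟩, rfl⟩
    · rintro ⟨p, hp, rfl⟩
      exact hp.2
  · intro q
    constructor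
    · intro hq
      exact ⟨⟨_, hex q⟩, ⟨E.M₁.zero_mem, hq⟩, rfl⟩
    · rintro ⟨p, hp, rfl⟩
      exact hp.2

theorem isLayer_prod_left (E F : Sh X) {d : ℤ} {P₁ P₂ : Submodule X.B E.M}
    (h : IsLayer E d P₁ P₂) :
    IsLayer (E.prod F) d (P₁.prod (⊤ : Submodule X.B F.M)) (P₂.prod (⊤ : Submodule X.B F.M)) := by
  let π : ↥(P₂.prod (⊤ : Submodule X.B F.M)) →ₗ[X.B] P₂ :=
    { toFun := fun p => ⟨p.1.1, p.2.1⟩
      map_add' := fun _ _ => rfl
      map_smul' := fun _ _ => rfl }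
  have hex : ∀ q : P₂, ((q : E.M), (0 : F.M)) ∈ P₂.prod (⊤ : Submodule X.B F.M) := fun q =>
    ⟨q.2, trivial⟩
  refine isLayer_of_surj (E' := E.prod F) π ?_ ?_ ?_ ?_ h
  · intro q
    exact ⟨⟨_, hex q⟩, rfl⟩
  · intro p
    exact ⟨fun hp => ⟨hp, trivial⟩, fun hp => hp.1⟩
  · intro q
    constructor
    · intro hq
      exact ⟨⟨_, hex q⟩, ⟨hq, F.M₀.zero_mem⟩, rfl⟩
    · rintro ⟨p, hp, rfl⟩
      exact hp.1
  · intro q
    constructor
    · intro hq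
      exact ⟨⟨_, hex q⟩, ⟨hq, F.M₁.zero_mem⟩, rfl⟩
    · rintro ⟨p, hp, rfl⟩
      exact hp.1

/-- iterated extensions are closed under direct sums -/
theorem loewy_prod {E F : Sh X} {d : ℤ} {n m : ℕ} (hE : Loewy E d n) (hF : Loewy F d m) :
    Loewy (E.prod F) d (m + n) := by
  obtain ⟨P, p0, pn, hP⟩ := hE
  obtain ⟨Q, q0, qm, hQ⟩ := hF
  refine ⟨fun j => if j ≤ m then (⊥ : Submodule X.B E.M).prod (Q j) else
    (P (j - m)).prod (⊤ : Submodule X.B F.M), ?_, ?_, ?_⟩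
  · simp only [Nat.zero_le, if_true, q0]
    exact Submodule.prod_bot
  · by_cases hn : n = 0
    · subst hn
      have hbt : (⊥ : Submodule X.B E.M) = ⊤ := p0.symm.trans pn
      simp only [add_zero, le_refl, if_true, qm, hbt]
      exact Submodule.prod_top
    · have h1 : ¬ (m + n ≤ m) := by omega
      have h2 : m + n - m = n := by omega
      simp only [h1, if_false, h2, pn]
      exact Submodule.prod_top
  · intro j hj
    by_cases h1 : j < m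
    · have h2 : j ≤ m := h1.le
      have h3 : j + 1 ≤ m := h1
      simp only [h2, h3, if_true]
      exact ⟨Submodule.prod_mono le_rfl (hQ j h1).1, isLayer_prod_right E F (hQ j h1).2⟩
    · have h3 : ¬ (j + 1 ≤ m) := by omega
      have h4 : (if j ≤ m then (⊥ : Submodule X.B E.M).prod (Q j) else
          (P (j - m)).prod (⊤ : Submodule X.B F.M)) =
          (P (j - m)).prod (⊤ : Submodule X.B F.M) := by
        split_ifs with h5
        · have h6 : j = m := by omega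
          subst h6
          rw [qm, Nat.sub_self, p0]
        · rfl
      have h5 : j + 1 - m = (j - m) + 1 := by omega
      have h6 : j - m < n := by omega
      simp only [h3, if_false, h4, h5]
      exact ⟨Submodule.prod_mono (hP (j - m) h6).1 le_rfl,
        isLayer_prod_left E F (hP (j - m) h6).2⟩

end Pool.Agent.DWC
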